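import Mathlib
import Pool.Graph.R_pool_sql_team_seeded_f0cf7b00.H329R2.AD.Defs

/-!
# TD project (helper592), `MP_122e00_nt`: `∑_{n ≤ x} d_3(n) d_3(n+h)` is at least `1737/1792 - o(1)` of the
conjectured main term (the library has `15/16 - o(1)`)

Definitions. The library definitions `dk`, `ram`, `Pr`, `SS` are in
`Pool.Graph.R_pool_sql_team_seeded_f0cf7b00.H329R2.AD.Defs`.
-/

set_option autoImplicit false

open Finset Filter Topology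

namespace Pool.Agent.H592.TD

open Pool.Agent.H329R2.AD (dk ram Pr SS)

/-- the proportion of the pairs `(b, c)` of residues modulo `M` with `M ∣ a b c + s` -/
noncomputable def rho (s : ℤ) (a M : ℕ) : ℝ :=
  (((range M ×ˢ range M).filter (fun p : ℕ × ℕ => (M : ℤ) ∣ (a : ℤ) * p.1 * p.2 + s)).card : ℝ) / (M : ℝ) ^ 2

/-- the natural numbers `n` with `X ^ α < n ≤ X ^ β` -/
noncomputable def In (X α β : ℝ) : Finset ℕ := Ioc ⌊X ^ α⌋₊ ⌊X ^ β⌋₊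

/-- `∑_{X^α < a ≤ X^β} (a, e) / (e a)` -/
noncomputable def W1 (X α β : ℝ) (e : ℕ) : ℝ := ∑ a ∈ In X α β, (Nat.gcd a e : ℝ) / ((e : ℝ) * a)

/-- `∑_{e ∣ u v} 1 / (u v)`, `X^γ₁ < u ≤ X^γ₂`, `X^δ₁ < v ≤ X^δ₂` -/
noncomputable def W2 (X γ₁ γ₂ δ₁ δ₂ : ℝ) (e : ℕ) : ℝ :=
  ∑ u ∈ In X γ₁ γ₂, ∑ v ∈ In X δ₁ δ₂, if e ∣ u * v then 1 / ((u : ℝ) * v) else 0

/-- `M = M₀ q` with `M₀ ≤ Z` and `q` squarefree and coprime to `M₀ s` -/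
def Good (s : ℤ) (Z M : ℕ) : Prop :=
  ∃ M₀ q : ℕ, M = M₀ * q ∧ 1 ≤ M₀ ∧ M₀ ≤ Z ∧ Squarefree q ∧ Nat.Coprime q M₀ ∧ Nat.Coprime q s.natAbs

/-- the number of the `c` with `X / log X < a b c ≤ X` and `M ∣ a b c + s` -/
noncomputable def cc (s : ℤ) (X : ℝ) (M a b : ℕ) : ℕ :=
  ((Icc 1 ⌊X⌋₊).filter (fun c : ℕ => X / Real.log X < ((a * b * c : ℕ) : ℝ) ∧
    ((a * b * c : ℕ) : ℝ) ≤ X ∧ (M : ℤ) ∣ (a : ℤ) * b * c + s)).card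

/-- the number of the `(a, b, c, u, v)` with `a, b, u, v` in the given intervals, `X / log X < a b c ≤ X` and
`u v ∣ a b c + s` -/
noncomputable def CNT (s : ℤ) (X α₁ α₂ β₁ β₂ γ₁ γ₂ δ₁ δ₂ : ℝ) : ℕ :=
  ∑ a ∈ In X α₁ α₂, ∑ b ∈ In X β₁ β₂, ∑ u ∈ In X γ₁ γ₂, ∑ v ∈ In X δ₁ δ₂, cc s X (u * v) a b

/-- the number of the factorisations `n = a b c` with `a < b < c` and `a b > y` -/
def srt (y n : ℕ) : ℕ := ((n.divisors ×ˢ n.divisors).filter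
  (fun p : ℕ × ℕ => p.1 < p.2 ∧ y < p.1 * p.2 ∧ p.1 * p.2 ∣ n ∧ p.2 < n / (p.1 * p.2))).card

/-- the correlation of the numbers of the sorted balanced factorisations of `N` and `N + h`, `X/(2 log X) < N ≤ X` -/
noncomputable def TT (h X : ℕ) : ℝ :=
  ∑ N ∈ Ioc ⌊(X : ℝ) / (2 * Real.log X)⌋₊ X, (srt (Nat.sqrt X) N : ℝ) * (srt (Nat.sqrt X) (N + h) : ℝ)

/-- sorted balanced pair of points of the simplex: `(z₀, z₁)` stands for `(z₀, z₁, 1 - z₀ - z₁)` with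
`0 < z₀ < z₁ < 1 - z₀ - z₁ < 1/2`, and the same for `(z₂, z₃)` -/
def Bal : Set (Fin 4 → ℝ) := {z | 0 < z 0 ∧ z 0 < z 1 ∧ z 0 + 2 * z 1 < 1 ∧ 1 / 2 < z 0 + z 1 ∧
  0 < z 2 ∧ z 2 < z 3 ∧ z 2 + 2 * z 3 < 1 ∧ 1 / 2 < z 2 + z 3}

/-- the part of `Bal` in which `z₂ + z₃ < (2/3) (1 - z₀)` -/
def RA : Set (Fin 4 → ℝ) := {z | z ∈ Bal ∧ z 0 + 3 / 2 * (z 2 + z 3) < 1}

/-- the part of `Bal` in which `z₀ + z₁ < (2/3) (1 - z₂)` -/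
def RB : Set (Fin 4 → ℝ) := {z | z ∈ Bal ∧ z 2 + 3 / 2 * (z 0 + z 1) < 1}

/-- the closed cell with lower corner `z / n` and side `1 / n` -/
def cell (n : ℕ) (z : Fin 4 → ℕ) : Set (Fin 4 → ℝ) :=
  {t | ∀ i, (z i : ℝ) / n ≤ t i ∧ t i ≤ ((z i : ℝ) + 1) / n}

end Pool.Agent.H592.TD
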