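import Mathlib
import Pool.Agent.H592.TD.Defs

/-!
# TD project (helper592): the statements with paper proofs

Notation: `M = M₀ q`, `ω(q) = q.primeFactors.card`, `τ` = number of divisors, `e(x) = exp(2πix)`.
-/

set_option autoImplicit false

open Finset Filter Topology

namespace Pool.Agent.H592.TD

open Pool.Agent.H329R2.AD (dk ram Pr SS)

/-- **TD1 (Kloosterman).** Count of `(b, c)` in a box with `M₀ q ∣ a b c + s`, `q` squarefree.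

Proof. Write `R = M₀`, `M = R q`. If a prime divides `(a, q)` there is no solution and `rho = 0` (it would divide `s`).
So let `(a, q) = 1` and let `κ` be `- s a⁻¹` modulo `q`, a unit. The condition says: `(b, c) ≡ (b₀, c₀)` modulo `R` for
one of the `R² rho(a, R) ≤ R²` pairs `b₀, c₀ < R` with `R ∣ a b₀ c₀ + s`, and `b` is coprime to `q` and
`c ≡ κ b⁻¹ mod q`. By the Chinese remainder theorem `rho s a M = rho s a R * φ(q)/q²`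
(`#{(β, γ) mod q : a β γ + s = 0} = φ(q)`).
Fix `(b₀, c₀)`; for `b` coprime to `q`, `b ≡ b₀ mod R` let `r_b mod M` be the class of `c`. The number of the
`c ∈ (C₀, C₁]`, `c ≡ r_b mod M`, is `(1/M) ∑_{l mod M} G(l) e(-l r_b / M)` with `G(l) = ∑_{C₀ < c ≤ C₁} e(l c / M)`.
* `l = 0`: `(C₁-C₀)/M` times the number of the `b`, which is `(B₁-B₀) φ(q)/(R q) + O(2^ω(q))` (Möbius over the divisors of
  `q`); error `2^ω (C₁-C₀)/M` per pair.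
* `l ≠ 0`: `∑_{0 < l < M} |G(l)|/M`-weights: `|G(l)| ≤ M/2 (1/l + 1/(M-l))` (library `Inc.geom`). With `g = (l, q)`,
  `q' = q/g`: `e(-l r_b/M) = e(const) * e(-c' b⁻¹/q')` with `c'` a unit modulo `q'` and `const` independent of `b`;
  remove the condition `(b, g) = 1` by Möbius over `d ∣ g` (then `b ≡ 0 mod d`, a progression modulo `R d`, which is coprime
  to `q'`), and use the library theorem `Pool.Agent.H442R2.KF.incomplete`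
  (Pool/Graph/R_seed8/H442R2/KF/Inc.lean; incomplete Kloosterman sums in a progression, squarefree modulus):
  `|∑_b| ≤ 2^ω(q) √(q/g) ((B₁-B₀) g/(R q) + 2 + log q)`.
  Finally `∑_{l<M} √(l,q)/l ≤ (1+log M) 2^ω(q)` (group by `g`) and `∑ 1/l ≤ 1 + log M`.
Total error per pair `≤ 4^ω (2+log M)² ((B₁-B₀)/√q + √q + (C₁-C₀)/q)` up to a factor 8 (the constants are generous). -/
def S1 : Prop := ∀ (s : ℤ) (M₀ q : ℕ), s ≠ 0 → 1 ≤ M₀ → Squarefree q → Nat.Coprime q M₀ → Nat.Coprime q s.natAbs →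
  ∀ (a B₀ B₁ C₀ C₁ : ℕ), 1 ≤ a → B₀ ≤ B₁ → C₀ ≤ C₁ →
  |(((Ioc B₀ B₁ ×ˢ Ioc C₀ C₁).filter
      (fun p : ℕ × ℕ => ((M₀ * q : ℕ) : ℤ) ∣ (a : ℤ) * p.1 * p.2 + s)).card : ℝ) -
      ((B₁ : ℝ) - B₀) * ((C₁ : ℝ) - C₀) * rho s a (M₀ * q)| ≤
    8 * (M₀ : ℝ) ^ 2 * 4 ^ q.primeFactors.card * (2 + Real.log (M₀ * q)) ^ 2 *
      (((B₁ : ℝ) - B₀) / Real.sqrt q + Real.sqrt q + ((C₁ : ℝ) - C₀) / q)

/-- **TD2 (Ramanujan expansion).** Proof. `rho s a M` is the probability of `M ∣ a b c + s` for random residues `b, c`: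
`(1/M) ∑_{t mod M} e(t s/M) E_b E_c e(t a b c/M)`. Write `t/M = t'/e` in lowest terms, `e ∣ M`: `E_c` is `1` if `e ∣ a b`
and `0` otherwise, and the probability that `e ∣ a b` is `(a, e)/e`; the sum of `e(t' s/e)` over the reduced residues `t'`
is Ramanujan's sum `ram e |s|`. (For a proof without characters: count `b c` classes with `gcd`s.) -/
def S2 : Prop := ∀ (s : ℤ) (a M : ℕ), s ≠ 0 → 1 ≤ a → 1 ≤ M →
  rho s a M = 1 / (M : ℝ) * ∑ e ∈ M.divisors, ram e s.natAbs * ((Nat.gcd a e : ℝ) / e)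

/-- **TD3 (one variable: limit and bound).** Proof. Bound: `∑ (a,e)/a ≤ ∑_{d ∣ e} d ∑_{d ∣ a} 1/a ≤ τ(e)(1 + β log X)`.
Limit: group `a` modulo `e`: `∑_{X^α < a ≤ X^β, a ≡ r (e)} 1/a = ((β-α)/e) log X + O(1)`, and
`(1/e²) ∑_{r < e} (r, e) = Pr 2 e` (the probability that `e ∣ v₀ v₁`; `Pr` is over functions `Fin 2 → range e`). -/
def S3 : Prop := ∀ (α β : ℝ), 0 < α → α < β →
  (∀ e : ℕ, 1 ≤ e → Tendsto (fun X : ℝ => W1 X α β e / Real.log X) atTop (𝓝 ((β - α) * Pr 2 e))) ∧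
  ∃ C : ℝ, 0 ≤ C ∧ ∀ X : ℝ, 2 ≤ X → ∀ e : ℕ, 1 ≤ e →
    W1 X α β e ≤ C * ((e.divisors.card : ℝ) / e) * Real.log X

/-- **TD4 (two variables: limit and bound).** Proof. Bound: put `d = (u, e)`: `e ∣ u v` iff `(e/d) ∣ v`; so
`W2 ≤ ∑_{d ∣ e} (∑_{d ∣ u} 1/u)(∑_{(e/d) ∣ v} 1/v) ≤ ∑_{d ∣ e} (1/d)(d/e) (1 + γ₂ log X)(1 + δ₂ log X)`.
Limit: group `u`, `v` modulo `e`; `1/e²` times the number of pairs of residues with `e ∣ u v` is `Pr 2 e`. -/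
def S4 : Prop := ∀ (γ₁ γ₂ δ₁ δ₂ : ℝ), 0 < γ₁ → γ₁ < γ₂ → 0 < δ₁ → δ₁ < δ₂ →
  (∀ e : ℕ, 1 ≤ e → Tendsto (fun X : ℝ => W2 X γ₁ γ₂ δ₁ δ₂ e / Real.log X ^ 2) atTop
    (𝓝 ((γ₂ - γ₁) * (δ₂ - δ₁) * Pr 2 e))) ∧
  ∃ C : ℝ, 0 ≤ C ∧ ∀ X : ℝ, 2 ≤ X → ∀ e : ℕ, 1 ≤ e →
    W2 X γ₁ γ₂ δ₁ δ₂ e ≤ C * ((e.divisors.card : ℝ) / e) * Real.log X ^ 2

/-- **TD5 (main term of a box).** Proof from `S2`, `S3`, `S4`. By `S2` the sum is
`(∑_b 1/b) * ∑_{e ≥ 1} ram e |s| * W1 X α₁ α₂ e * W2 X γ₁ γ₂ δ₁ δ₂ e` (a finite sum: `W2 = 0` for large `e`; interchange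
the sums), `∑_b 1/b ∼ (β₂-β₁) log X`. Divide by `log⁴ X` and use dominated convergence (Tannery,
`tendsto_tsum_of_dominated_convergence`) with `|ram e |s|| ≤ ∑_{d ∣ s} d` and the dominating series
`C τ(e)²/e²` (for `τ(e)² ≤ C √e` see for instance the divisor bound `Pool.Agent.H329R2.AD.DBStmt_holds` or any other).
The limit series is `∑' e, ram (e+1) |s| * Pr 2 (e+1)^2 = SS 3 |s|`. -/
def S5 : Prop := ∀ (s : ℤ), s ≠ 0 → ∀ (α₁ α₂ β₁ β₂ γ₁ γ₂ δ₁ δ₂ : ℝ), 0 < α₁ → α₁ < α₂ → 0 < β₁ → β₁ < β₂ →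
  0 < γ₁ → γ₁ < γ₂ → 0 < δ₁ → δ₁ < δ₂ →
  Tendsto (fun X : ℝ => (∑ a ∈ In X α₁ α₂, ∑ b ∈ In X β₁ β₂, ∑ u ∈ In X γ₁ γ₂, ∑ v ∈ In X δ₁ δ₂,
      rho s a (u * v) / ((a : ℝ) * b)) / Real.log X ^ 4) atTop
    (𝓝 ((α₂ - α₁) * (β₂ - β₁) * ((γ₂ - γ₁) * (δ₂ - δ₁)) * SS 3 s.natAbs))

/-- **TD6 (moduli which are not good).** Proof (from `S2`, the bounds in `S3`, `S4`). For every `M ≥ 1` let `M₀` be the
product of the `p^k ∥ M` with `k ≥ 2` or `p ∣ s`; then `q = M / M₀` is squarefree, coprime to `M₀ s`. So if `M` is not good,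
`M` is divisible by some `m > Z`, `m ∈ 𝒮`, `𝒮` = the numbers `m` all of whose primes `p` have `p² ∣ m` or `p ∣ s`.
By `S2`, `rho ≤ (σ(s)/M) ∑_{e ∣ M} (a,e)/e` and by the bound of `S3` the sum over `a` of `rho/a` is at most
`C log X (1/M) ∑_{e ∣ M} τ(e)/e`. The sum over the bad `M = u v` is at most
`C log X ∑_{m ∈ 𝒮, m > Z} ∑_e (τ(e)/e) ∑_{u,v : lcm(m,e) ∣ u v} 1/(u v)`
`≤ C log³ X ∑_{m ∈ 𝒮, m > Z} ∑_e τ(e) τ(lcm)/(e lcm)` (bound of `S4`) and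
`∑_e τ(e) τ(lcm(m,e))/(e lcm(m,e)) ≤ (τ(m)/m) ∑_e τ(e)² (m,e)/e² ≤ C τ(m)⁴/m ≤ C m^(-3/4)`; the series
`∑_{m ∈ 𝒮} m^(-3/4)` converges (`m = t w`, `t` composed of the primes of `s`, `w = x² y³` powerful), so its tail beyond `Z`
tends to `0`. -/
def S6 : Prop := ∀ (s : ℤ), s ≠ 0 → ∀ (α₁ α₂ γ₁ γ₂ δ₁ δ₂ : ℝ), 0 < α₁ → α₁ < α₂ →
  0 < γ₁ → γ₁ < γ₂ → 0 < δ₁ → δ₁ < δ₂ → ∀ η : ℝ, 0 < η → ∃ Z : ℕ, ∀ X : ℝ, 2 ≤ X →
    ∑ a ∈ In X α₁ α₂, ∑ u ∈ In X γ₁ γ₂, ∑ v ∈ In X δ₁ δ₂,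
      (open Classical in if Good s Z (u * v) then 0 else rho s a (u * v) / (a : ℝ)) ≤ η * Real.log X ^ 3

/-- **TD7 (one modulus, one `a`).** Proof from `S1`. Let `δ > 0` be so small that `δ/((1+δ) log(1+δ)) > 1 - η/2`. Put
`b_k = ⌊X^β₁ (1+δ)^k⌋` for `k ≤ K`, `K = ⌊(β₂-β₁) log X / log(1+δ)⌋`. For `b ∈ (b_k, b_{k+1}]` and `c` in
`(⌊X/(a b_k log X)⌋ + 1, ⌊X/(a b_{k+1})⌋]` one has `X/log X < a b c ≤ X`. Use `S1` for each of the `K = O(log X)` boxes.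
Main terms: `rho * (X/a) ∑_k (b_{k+1}-b_k)/b_{k+1} (1 - O(1/log X)) - 3 rho * X^β₂`, the sum over `k` is
`≥ (1 - η/2 - o(1)) (β₂-β₁) log X`, and `X^β₂ ≤ (X/a) X^(-ε)` since `a ≤ X^(1-β₂-ε)`.
Errors: with `M₀ ≤ Z`, `4^ω(q) (2 + log M)² ≤ X^(ε/4)` (divisor bound; `M ≤ X`), `q ≥ M/Z`, `X^β₂ ≤ M`:
`b_{k+1}/√q ≤ √Z X^β₂/√M ≤ √Z √M`, `√q ≤ √M`, and `(C₁-C₀)/q ≤ Z X/(a b_k M)`, `b_k ≥ X^β₁/2`. -/
def S7 : Prop := ∀ (s : ℤ), s ≠ 0 → ∀ (β₁ β₂ : ℝ), 0 < β₁ → β₁ < β₂ → β₂ < 1 → ∀ (Z : ℕ) (η ε : ℝ), 0 < η → 0 < ε →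
  ∃ X₀ : ℝ, ∀ X : ℝ, X₀ ≤ X → ∀ a M : ℕ, 1 ≤ a → (a : ℝ) ≤ X ^ (1 - β₂ - ε) → Good s Z M →
    X ^ β₂ ≤ (M : ℝ) → (M : ℝ) ≤ X →
    (1 - η) * ((β₂ - β₁) * Real.log X) * (X / a) * rho s a M -
        X ^ ε * (Real.sqrt M + X ^ (1 - β₁) / ((a : ℝ) * M)) ≤
      ∑ b ∈ In X β₁ β₂, (cc s X M a b : ℝ)

/-- **TD8 (boxes).** Proof from `S5`, `S6`, `S7`. Sum `S7` (with small `η`, and `ε` so small that
`α₂ + β₂ + ε < 1`, `α₂ + (3/2)(γ₂+δ₂) + 2ε < 1` and `2 ε < β₁`, ...) over `a`, `u`, `v` with `M = u v` good; the other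
`M` are dropped. The sum of the main terms over all `M` is `(1-η) X` times the sum of `S5` up to the factor
`(β₂-β₁) log X` against `∑_b 1/b ∼ (β₂-β₁) log X`, and the bad `M` contribute at most `C η' X log⁴ X` by `S6`. Errors:
`∑_{a,u,v} √(u v) ≤ X^(α₂ + (3/2)(γ₂+δ₂))` and `∑ 1/(a u v) ≤ C log³ X`. -/
def S8 : Prop := ∀ (s : ℤ), s ≠ 0 → ∀ (α₁ α₂ β₁ β₂ γ₁ γ₂ δ₁ δ₂ : ℝ), 0 < α₁ → α₁ < α₂ → 0 < β₁ → β₁ < β₂ →
  0 < γ₁ → γ₁ < γ₂ → 0 < δ₁ → δ₁ < δ₂ → α₂ + β₂ < 1 → α₂ + 3 / 2 * (γ₂ + δ₂) < 1 → β₂ ≤ γ₁ + δ₁ →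
  ∀ v : ℝ, v < (α₂ - α₁) * (β₂ - β₁) * ((γ₂ - γ₁) * (δ₂ - δ₁)) * SS 3 s.natAbs →
    ∀ᶠ X : ℝ in atTop, v * (X * Real.log X ^ 4) ≤ (CNT s X α₁ α₂ β₁ β₂ γ₁ γ₂ δ₁ δ₂ : ℝ)

/-- **TD9 (cells fill an open set).** Proof. For `n = 2^m` let `K_m` be the (finite, as the sets are bounded) set of the `z`
with `cell (2^m) z ⊆ A` or `⊆ B`. The half-open cells `∏ (z_i/n, (z_i+1)/n]`, `z ∈ K_m`, are disjoint, of volume `n^(-4)`,
and their unions `U_m` increase with `m` to `A ∪ B` (a point of the open set `A` with positive coordinates has a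
neighbourhood in `A`). So `K_m.card / n^4 = vol U_m → vol (A ∪ B)` (continuity of the measure from below). -/
def S9 : Prop := ∀ (A B : Set (Fin 4 → ℝ)), IsOpen A → IsOpen B → Bornology.IsBounded A → Bornology.IsBounded B →
  (∀ t ∈ A ∪ B, ∀ i, 0 < t i) → ∀ v : ℝ, v < (MeasureTheory.volume (A ∪ B)).toReal →
  ∃ (n : ℕ) (K : Finset (Fin 4 → ℕ)), 1 ≤ n ∧ (∀ z ∈ K, cell n z ⊆ A ∨ cell n z ⊆ B) ∧ v < (K.card : ℝ) / (n : ℝ) ^ 4

/-- **TD10 (from boxes to the sorted balanced correlation).** Proof. Put `V = vol (RA ∪ RB)`, `v < V * SS 3 h`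
(`SS 3 h > 0` is `Pool.Agent.H329R2.AD.SS_pos 2 h`; if `v < 0` the claim is trivial). By `S9` (`RA`, `RB` are open and
bounded with positive coordinates) choose `n`, `K` with `v < (K.card/n^4) * SS 3 h`. For `z ∈ K` with `cell n z ⊆ RA`
apply `S8` with `s = h` and the box `α = (z₀/n, (z₀+1)/n)`, `β` from `z₁`, `γ` from `z₂`, `δ` from `z₃`; the hypotheses hold
since the corners of the cell are in `RA` (`β₂ < 1/2 < γ₁ + δ₁` as `z₀ + 2 z₁ < 1` in `Bal`). For the other `z ∈ K` apply `S8`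
with `s = -h` and the roles exchanged: `α` from `z₂`, `β` from `z₃`, `γ` from `z₀`, `δ` from `z₁`. It remains to show that
for large `X` the sum of these counts is at most `TT h X`. An element counted for `z` (first kind) is `(a, b, c, u, v)` with
`N = a b c ∈ (X/log X, X]`, `N + h = u v w`: by the margins of the closed cell in `RA` (compactness, or just the corners:
`X^((z₀+1)/n)`, `X^((z₁+1)/n)` etc. and `log X`, `h` are absorbed) `a < b < c`, `a b > √X`, `u < v < w`, `u v > √X`; it gives a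
pair of sorted factorisations counted in `srt √X N * srt √X (N+h)`. Second kind: `a b c` is `N + h`, `u v ∣ N = a b c - h`,
and `N > X/log X - h ≥ X/(2 log X)`. Different `z` give disjoint sets of pairs because the boxes are disjoint. -/
def S10 : Prop := ∀ h : ℕ, 1 ≤ h → ∀ v : ℝ, v < (MeasureTheory.volume (RA ∪ RB)).toReal * SS 3 h →
  ∀ᶠ X : ℕ in atTop, v * ((X : ℝ) * Real.log X ^ 4) ≤ TT h X

/-- **TD11 (the library bound with the sorted balanced part added).** Proof. `dk 3 n` is the number of `(a, b, c)` with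
`a b c = n`. With `aa 2 y n` of the library (`Pool.Agent.H329R2.AD.aa`, file `H329R2/AD/G1.lean`) and `n > y²`:
`3 aa 2 y n` counts the triples in which some product of two of the members is `≤ y` (exactly one product can be), so
`dk 3 n - 3 aa 2 y n` counts the triples with `a b, a c, b c > y`, and it is at least `6 srt y n` (six orders).
So in the pointwise inequality `pw` of `G1.lean` (`k = 2`, `n > y²`) one can add `36 srt y n srt y (n+h)` on the left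
(the product of the two nonnegative brackets was dropped there); hence in `fixed` one can add
`36 ∑_{y² < n ≤ X} srt y n srt y (n+h)` on the left, and the proof of `lower` in `G2.lean` (with `y = ⌊X^(1/2-t)⌋`) gives the
claim for every `c < 1 - (1-3/4)² = 15/16`: for large `X`, `y² < X/(2 log X)` and `y ≤ √X`, so this sum is at least
`TT h X` (`srt` is nonincreasing in `y`). -/
def S11 : Prop := ∀ h : ℕ, 1 ≤ h → ∀ c : ℝ, c < 15 / 16 → ∀ᶠ X : ℕ in atTop,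
  c * (SS 3 h / 4 * X * Real.log X ^ 4) + 36 * TT h X ≤ ∑ n ∈ Icc 1 X, dk 3 n * dk 3 (n + h)

/-- **TD12 (the volume).** `vol (RA ∪ RB) = 19/86016` (only `≥` is needed).
Proof. For a sorted balanced `(z₀, z₁)` put `s = z₀`, `g = 1 - z₀ - z₁` (the maximum): `s ∈ (0, 1/3)`,
`(1-s)/2 < g < min(1/2, 1-2s)`; the map `(z₀,z₁) ↦ (s,g)` preserves the area. `RA`: `g' > 1/3 + (2/3) s`; `RB`:
`g > 1/3 + (2/3) s'`. `vol RA = vol RB`:
for `s < 1/4` the area of `{(s', g') : g' > 1/3+2s/3}` is `1/48 - (2s)²/12 = (1 - 16 s²)/48`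
(sorted part of the region `3 g' - 1 ≥ 2 s`), it is `0` for `s ≥ 1/4`; so `vol RA = ∫_0^{1/4} (s/2)(1-16 s²)/48 ds = 1/6144`.
`vol (RA ∩ RB)` is the integral over `s, s' ∈ (0,1/4)` of `(1/2 - max((1-s)/2, 1/3+2s'/3)) (1/2 - max((1-s')/2, 1/3+2s/3))`
`= 3/28672`, and `2/6144 - 3/28672 = 19/86016`. (A lower bound by any other method is fine, too.) -/
def S12 : Prop := (19 / 86016 : ℝ) ≤ (MeasureTheory.volume (RA ∪ RB)).toReal

end Pool.Agent.H592.TD
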