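import Pool.Agent.H592.TD.Stm

set_option autoImplicit false

open Finset Filter Topology

namespace Pool.Agent.H592.TD

open Pool.Agent.H329R2.AD (dk ram Pr SS)

namespace P8

lemma mem_In {X α β : ℝ} (hX : 0 ≤ X) {n : ℕ} (h : n ∈ In X α β) :
    X ^ α < (n : ℝ) ∧ (n : ℝ) ≤ X ^ β := by
  unfold In at h
  rw [mem_Ioc] at h
  exact ⟨Nat.lt_of_floor_lt h.1, (Nat.le_floor_iff (Real.rpow_nonneg hX β)).1 h.2⟩

lemma card_In {X α β : ℝ} (hX : 0 ≤ X) : ((In X α β).card : ℝ) ≤ X ^ β := by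
  unfold In
  rw [Nat.card_Ioc]
  calc ((⌊X ^ β⌋₊ - ⌊X ^ α⌋₊ : ℕ) : ℝ) ≤ (⌊X ^ β⌋₊ : ℝ) := by exact_mod_cast Nat.sub_le _ _
    _ ≤ X ^ β := Nat.floor_le (Real.rpow_nonneg hX β)

/-- the sum of `1/b` -/
noncomputable def HH (X α β : ℝ) : ℝ := ∑ b ∈ In X α β, 1 / (b : ℝ)

lemma harm_Ioc {m n : ℕ} (h : m ≤ n) :
    ∑ b ∈ Ioc m n, 1 / (b : ℝ) = ((harmonic n : ℚ) : ℝ) - ((harmonic m : ℚ) : ℝ) := by
  have h1 : ∀ k : ℕ, ((harmonic k : ℚ) : ℝ) = ∑ b ∈ Ioc 0 k, 1 / (b : ℝ) := by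
    intro k
    rw [harmonic_eq_sum_Icc]
    push_cast
    refine Finset.sum_congr ?_ (fun b _ => by rw [one_div])
    ext b
    simp only [mem_Icc, mem_Ioc]
    omega
  rw [h1, h1, ← Finset.sum_Ioc_consecutive _ (Nat.zero_le m) h]
  ring

lemma HH_bound {X α β : ℝ} (hX : 1 ≤ X) (hα : 0 ≤ α) (hαβ : α ≤ β) :
    |HH X α β - (β - α) * Real.log X| ≤ 1 := by
  have hX0 : 0 < X := by linarith
  have hXa : 1 ≤ X ^ α := Real.one_le_rpow hX hα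
  have hXb : 1 ≤ X ^ β := Real.one_le_rpow hX (hα.trans hαβ)
  have hmn : ⌊X ^ α⌋₊ ≤ ⌊X ^ β⌋₊ :=
    Nat.floor_le_floor (Real.rpow_le_rpow_of_exponent_le hX hαβ)
  have h1 := log_le_harmonic_floor (X ^ α) (by positivity)
  have h2 := harmonic_floor_le_one_add_log (X ^ α) hXa
  have h3 := log_le_harmonic_floor (X ^ β) (by positivity)
  have h4 := harmonic_floor_le_one_add_log (X ^ β) hXb
  rw [Real.log_rpow hX0] at h1 h2 h3 h4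
  unfold HH In
  rw [harm_Ioc hmn, abs_le]
  constructor <;> nlinarith

lemma HH_nonneg (X α β : ℝ) : 0 ≤ HH X α β :=
  Finset.sum_nonneg fun b _ => by positivity

lemma HH_tendsto {α β : ℝ} (hα : 0 ≤ α) (hαβ : α ≤ β) :
    Tendsto (fun X : ℝ => HH X α β / Real.log X) atTop (𝓝 (β - α)) := by
  have h1 : Tendsto (fun X : ℝ => 1 / Real.log X) atTop (𝓝 0) := by
    simp only [one_div]
    exact Real.tendsto_log_atTop.inv_tendsto_atTop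
  rw [tendsto_iff_norm_sub_tendsto_zero]
  refine squeeze_zero' (Eventually.of_forall fun X => norm_nonneg _) ?_ h1
  filter_upwards [eventually_gt_atTop (Real.exp 1)] with X hX
  have hX1 : 1 ≤ X := by
    have := Real.add_one_le_exp (1 : ℝ)
    linarith
  have hL : 0 < Real.log X := by
    rw [← Real.log_one]
    apply Real.log_lt_log one_pos
    have := Real.add_one_le_exp (1 : ℝ)
    linarith
  have h2 := HH_bound hX1 hα hαβ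
  have h3 : HH X α β / Real.log X - (β - α) = (HH X α β - (β - α) * Real.log X) / Real.log X := by
    field_simp
  rw [h3, Real.norm_eq_abs, abs_div, abs_of_pos hL]
  gcongr

lemma rho_nonneg (s : ℤ) (a M : ℕ) : 0 ≤ rho s a M := by
  unfold rho
  positivity

/-- the sum of `rho / a` -/
noncomputable def RR (s : ℤ) (X α₁ α₂ γ₁ γ₂ δ₁ δ₂ : ℝ) : ℝ :=
  ∑ a ∈ In X α₁ α₂, ∑ u ∈ In X γ₁ γ₂, ∑ v ∈ In X δ₁ δ₂, rho s a (u * v) / (a : ℝ)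

open Classical in
/-- the sum of `rho / a` over the good moduli -/
noncomputable def RG (s : ℤ) (Z : ℕ) (X α₁ α₂ γ₁ γ₂ δ₁ δ₂ : ℝ) : ℝ :=
  ∑ a ∈ In X α₁ α₂, ∑ u ∈ In X γ₁ γ₂, ∑ v ∈ In X δ₁ δ₂,
    (if Good s Z (u * v) then rho s a (u * v) / (a : ℝ) else 0)

open Classical in
lemma RG_eq (s : ℤ) (Z : ℕ) (X α₁ α₂ γ₁ γ₂ δ₁ δ₂ : ℝ) :
    RG s Z X α₁ α₂ γ₁ γ₂ δ₁ δ₂ = RR s X α₁ α₂ γ₁ γ₂ δ₁ δ₂ -
      ∑ a ∈ In X α₁ α₂, ∑ u ∈ In X γ₁ γ₂, ∑ v ∈ In X δ₁ δ₂,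
      (if Good s Z (u * v) then 0 else rho s a (u * v) / (a : ℝ)) := by
  unfold RG RR
  rw [← Finset.sum_sub_distrib]
  refine Finset.sum_congr rfl fun a _ => ?_
  rw [← Finset.sum_sub_distrib]
  refine Finset.sum_congr rfl fun u _ => ?_
  rw [← Finset.sum_sub_distrib]
  refine Finset.sum_congr rfl fun v _ => ?_
  split_ifs <;> ring

lemma main_eq (s : ℤ) (X α₁ α₂ β₁ β₂ γ₁ γ₂ δ₁ δ₂ : ℝ) :
    ∑ a ∈ In X α₁ α₂, ∑ b ∈ In X β₁ β₂, ∑ u ∈ In X γ₁ γ₂, ∑ v ∈ In X δ₁ δ₂,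
      rho s a (u * v) / ((a : ℝ) * b) = HH X β₁ β₂ * RR s X α₁ α₂ γ₁ γ₂ δ₁ δ₂ := by
  unfold RR HH
  rw [Finset.mul_sum]
  refine Finset.sum_congr rfl fun a _ => ?_
  rw [Finset.sum_mul]
  refine Finset.sum_congr rfl fun b _ => ?_
  rw [Finset.mul_sum]
  refine Finset.sum_congr rfl fun u _ => ?_
  rw [Finset.mul_sum]
  refine Finset.sum_congr rfl fun v _ => ?_
  rw [div_mul_div_comm, one_mul, mul_comm (b : ℝ) a]

lemma cnt_comm (s : ℤ) (X α₁ α₂ β₁ β₂ γ₁ γ₂ δ₁ δ₂ : ℝ) :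
    (CNT s X α₁ α₂ β₁ β₂ γ₁ γ₂ δ₁ δ₂ : ℝ) =
      ∑ a ∈ In X α₁ α₂, ∑ u ∈ In X γ₁ γ₂, ∑ v ∈ In X δ₁ δ₂, ∑ b ∈ In X β₁ β₂,
        (cc s X (u * v) a b : ℝ) := by
  unfold CNT
  push_cast
  refine Finset.sum_congr rfl fun a _ => ?_
  rw [Finset.sum_comm]
  refine Finset.sum_congr rfl fun u _ => ?_
  rw [Finset.sum_comm]

/-- the error term -/
noncomputable def EE (X ε α₁ α₂ β₁ γ₁ γ₂ δ₁ δ₂ : ℝ) : ℝ :=
  X ^ ε * (X ^ (α₂ + 3 / 2 * (γ₂ + δ₂)) +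
    X ^ (1 - β₁) * (HH X α₁ α₂ * (HH X γ₁ γ₂ * HH X δ₁ δ₂)))

lemma err_bound {X ε α₁ α₂ β₁ γ₁ γ₂ δ₁ δ₂ : ℝ} (hX : 1 ≤ X) :
    ∑ a ∈ In X α₁ α₂, ∑ u ∈ In X γ₁ γ₂, ∑ v ∈ In X δ₁ δ₂,
      X ^ ε * (Real.sqrt ((u * v : ℕ) : ℝ) + X ^ (1 - β₁) / ((a : ℝ) * ((u * v : ℕ) : ℝ))) ≤
      EE X ε α₁ α₂ β₁ γ₁ γ₂ δ₁ δ₂ := by
  have hX0 : 0 < X := by linarith
  have h1 : ∑ a ∈ In X α₁ α₂, ∑ u ∈ In X γ₁ γ₂, ∑ v ∈ In X δ₁ δ₂,
      Real.sqrt ((u * v : ℕ) : ℝ) ≤ X ^ (α₂ + 3 / 2 * (γ₂ + δ₂)) := by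
    have h2 : ∀ a ∈ In X α₁ α₂, ∀ u ∈ In X γ₁ γ₂, ∀ v ∈ In X δ₁ δ₂,
        Real.sqrt ((u * v : ℕ) : ℝ) ≤ X ^ ((γ₂ + δ₂) / 2) := by
      intro a _ u hu v hv
      have hu' := (mem_In hX0.le hu).2
      have hv' := (mem_In hX0.le hv).2
      have h3 : X ^ ((γ₂ + δ₂) / 2) = Real.sqrt (X ^ γ₂ * X ^ δ₂) := by
        rw [← Real.rpow_add hX0, Real.sqrt_eq_rpow, ← Real.rpow_mul hX0.le]
        congr 1
        ring
      rw [h3]
      apply Real.sqrt_le_sqrt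
      push_cast
      exact mul_le_mul hu' hv' (by positivity) (by positivity)
    calc ∑ a ∈ In X α₁ α₂, ∑ u ∈ In X γ₁ γ₂, ∑ v ∈ In X δ₁ δ₂, Real.sqrt ((u * v : ℕ) : ℝ)
        ≤ ∑ a ∈ In X α₁ α₂, ∑ u ∈ In X γ₁ γ₂, ∑ v ∈ In X δ₁ δ₂, X ^ ((γ₂ + δ₂) / 2) :=
          Finset.sum_le_sum fun a ha => Finset.sum_le_sum fun u hu =>
            Finset.sum_le_sum fun v hv => h2 a ha u hu v hv
      _ = ((In X α₁ α₂).card : ℝ) * (((In X γ₁ γ₂).card : ℝ) * (((In X δ₁ δ₂).card : ℝ) *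
            X ^ ((γ₂ + δ₂) / 2))) := by
          simp only [Finset.sum_const, nsmul_eq_mul]
      _ ≤ X ^ α₂ * (X ^ γ₂ * (X ^ δ₂ * X ^ ((γ₂ + δ₂) / 2))) := by
          have c1 := card_In (α := α₁) (β := α₂) hX0.le
          have c2 := card_In (α := γ₁) (β := γ₂) hX0.le
          have c3 := card_In (α := δ₁) (β := δ₂) hX0.le
          gcongr
      _ = X ^ (α₂ + 3 / 2 * (γ₂ + δ₂)) := by
          rw [← Real.rpow_add hX0, ← Real.rpow_add hX0, ← Real.rpow_add hX0]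
          congr 1
          ring
  have h4 : ∑ a ∈ In X α₁ α₂, ∑ u ∈ In X γ₁ γ₂, ∑ v ∈ In X δ₁ δ₂,
      X ^ (1 - β₁) / ((a : ℝ) * ((u * v : ℕ) : ℝ)) =
      X ^ (1 - β₁) * (HH X α₁ α₂ * (HH X γ₁ γ₂ * HH X δ₁ δ₂)) := by
    unfold HH
    rw [Finset.sum_mul_sum, Finset.sum_mul, Finset.mul_sum]
    refine Finset.sum_congr rfl fun a _ => ?_
    rw [Finset.mul_sum, Finset.mul_sum]
    refine Finset.sum_congr rfl fun u _ => ?_
    rw [Finset.mul_sum, Finset.mul_sum]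
    refine Finset.sum_congr rfl fun v _ => ?_
    push_cast
    rw [one_div_mul_one_div, one_div_mul_one_div, mul_one_div]
  unfold EE
  simp only [← Finset.mul_sum, Finset.sum_add_distrib]
  rw [h4]
  gcongr

lemma err_tendsto {ε α₁ α₂ β₁ γ₁ γ₂ δ₁ δ₂ : ℝ} (hα : 0 ≤ α₁) (hα' : α₁ ≤ α₂) (hγ : 0 ≤ γ₁)
    (hγ' : γ₁ ≤ γ₂) (hδ : 0 ≤ δ₁) (hδ' : δ₁ ≤ δ₂) (h1 : ε + (α₂ + 3 / 2 * (γ₂ + δ₂)) < 1)
    (h2 : ε < β₁) :
    Tendsto (fun X : ℝ => EE X ε α₁ α₂ β₁ γ₁ γ₂ δ₁ δ₂ / (X * Real.log X ^ 4)) atTop (𝓝 0) := by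
  have hinv : Tendsto (fun X : ℝ => (Real.log X)⁻¹) atTop (𝓝 0) :=
    Real.tendsto_log_atTop.inv_tendsto_atTop
  have hp : ∀ c : ℝ, c < 0 → Tendsto (fun X : ℝ => X ^ c) atTop (𝓝 0) := by
    intro c hc
    have := tendsto_rpow_neg_atTop (y := -c) (by linarith)
    simpa using this
  have e1 : Tendsto (fun X : ℝ => X ^ (ε + (α₂ + 3 / 2 * (γ₂ + δ₂)) - 1) * (Real.log X)⁻¹ ^ 4)
      atTop (𝓝 (0 * 0 ^ 4)) := (hp _ (by linarith)).mul (hinv.pow 4)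
  have e2 : Tendsto (fun X : ℝ => X ^ (ε - β₁) * (Real.log X)⁻¹ *
      ((HH X α₁ α₂ / Real.log X) * ((HH X γ₁ γ₂ / Real.log X) * (HH X δ₁ δ₂ / Real.log X))))
      atTop (𝓝 (0 * 0 * ((α₂ - α₁) * ((γ₂ - γ₁) * (δ₂ - δ₁))))) :=
    ((hp _ (by linarith)).mul hinv).mul
      ((HH_tendsto hα hα').mul ((HH_tendsto hγ hγ').mul (HH_tendsto hδ hδ')))
  have e3 := e1.add e2
  simp only [zero_mul, mul_zero, add_zero] at e3
  refine e3.congr' ?_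
  filter_upwards [eventually_gt_atTop (Real.exp 1)] with X hX
  have hX1 : 1 < X := by
    have := Real.add_one_le_exp (1 : ℝ)
    linarith
  have hX0 : 0 < X := by linarith
  have hL : 0 < Real.log X := Real.log_pos hX1
  have r1 : X ^ (ε + (α₂ + 3 / 2 * (γ₂ + δ₂)) - 1) =
      X ^ ε * X ^ (α₂ + 3 / 2 * (γ₂ + δ₂)) / X := by
    rw [Real.rpow_sub hX0, Real.rpow_add hX0, Real.rpow_one]
  have r2 : X ^ (ε - β₁) = X ^ ε * X ^ (1 - β₁) / X := by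
    have : ε - β₁ = ε + (1 - β₁) - 1 := by ring
    rw [this, Real.rpow_sub hX0, Real.rpow_add hX0, Real.rpow_one]
  unfold EE
  rw [r1, r2]
  field_simp

end P8

open P8 in
theorem s8 (h5 : S5) (h6 : S6) (h7 : S7) : S8 := by
  classical
  intro s hs α₁ α₂ β₁ β₂ γ₁ γ₂ δ₁ δ₂ hα₁ hα hβ₁ hβ hγ₁ hγ hδ₁ hδ hab hac hbc v hv
  set V : ℝ := (α₂ - α₁) * (β₂ - β₁) * ((γ₂ - γ₁) * (δ₂ - δ₁)) * SS 3 s.natAbs with hV
  have hB : 0 < β₂ - β₁ := by linarith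
  -- the limit of RR
  have hT := h5 s hs α₁ α₂ β₁ β₂ γ₁ γ₂ δ₁ δ₂ hα₁ hα hβ₁ hβ hγ₁ hγ hδ₁ hδ
  rw [← hV] at hT
  have hR : Tendsto (fun X : ℝ => RR s X α₁ α₂ γ₁ γ₂ δ₁ δ₂ / Real.log X ^ 3) atTop
      (𝓝 (V / (β₂ - β₁))) := by
    have hq := hT.div (HH_tendsto hβ₁.le hβ.le) hB.ne'
    refine hq.congr' ?_
    have hne : ∀ᶠ X : ℝ in atTop, HH X β₁ β₂ / Real.log X ≠ 0 :=
      (HH_tendsto hβ₁.le hβ.le).eventually_ne hB.ne'
    filter_upwards [hne, eventually_gt_atTop (1 : ℝ)] with X hX hX1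
    have hL : 0 < Real.log X := Real.log_pos hX1
    have hH : HH X β₁ β₂ ≠ 0 := by
      intro h0
      exact hX (by rw [h0, zero_div])
    simp only [Pi.div_apply]
    rw [main_eq]
    field_simp
  have hV0 : 0 ≤ V := by
    have h0 : 0 ≤ V / (β₂ - β₁) := by
      refine ge_of_tendsto hR ?_
      filter_upwards [eventually_gt_atTop (1 : ℝ)] with X hX1
      have hL : 0 < Real.log X := Real.log_pos hX1
      refine div_nonneg ?_ (by positivity)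
      unfold RR
      exact Finset.sum_nonneg fun a _ => Finset.sum_nonneg fun u _ => Finset.sum_nonneg fun v _ =>
        div_nonneg (rho_nonneg _ _ _) (by positivity)
    have h1 : V = V / (β₂ - β₁) * (β₂ - β₁) := by field_simp
    rw [h1]
    positivity
  -- parameters
  have hgap : 0 < V - v := by linarith
  obtain ⟨η, hη0, hη1, hη⟩ : ∃ η : ℝ, 0 < η ∧ η < 1 ∧ η * V ≤ (V - v) / 4 := by
    refine ⟨min (1 / 2) ((V - v) / (4 * (V + 1))), by positivity, ?_, ?_⟩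
    · exact lt_of_le_of_lt (min_le_left _ _) (by norm_num)
    · calc min (1 / 2) ((V - v) / (4 * (V + 1))) * V ≤ ((V - v) / (4 * (V + 1))) * V :=
            mul_le_mul_of_nonneg_right (min_le_right _ _) hV0
        _ ≤ ((V - v) / (4 * (V + 1))) * (V + 1) :=
            mul_le_mul_of_nonneg_left (by linarith) (by positivity)
        _ = (V - v) / 4 := by field_simp
  obtain ⟨η', hη'0, hη'⟩ : ∃ η' : ℝ, 0 < η' ∧ (β₂ - β₁) * η' = (V - v) / 4 :=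
    ⟨(V - v) / 4 / (β₂ - β₁), by positivity, by field_simp⟩
  obtain ⟨ε, hε0, hε1, hε2, hε3⟩ : ∃ ε : ℝ, 0 < ε ∧ α₂ + β₂ + ε ≤ 1 ∧
      ε + (α₂ + 3 / 2 * (γ₂ + δ₂)) < 1 ∧ ε < β₁ := by
    refine ⟨min (1 - α₂ - β₂) (min ((1 - (α₂ + 3 / 2 * (γ₂ + δ₂))) / 2) (β₁ / 2)), ?_, ?_, ?_, ?_⟩
    · refine lt_min (by linarith) (lt_min (by linarith) (by linarith))
    · have := min_le_left (1 - α₂ - β₂) (min ((1 - (α₂ + 3 / 2 * (γ₂ + δ₂))) / 2) (β₁ / 2))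
      linarith
    · have := (min_le_right (1 - α₂ - β₂) (min ((1 - (α₂ + 3 / 2 * (γ₂ + δ₂))) / 2) (β₁ / 2))).trans
        (min_le_left _ _)
      linarith
    · have := (min_le_right (1 - α₂ - β₂) (min ((1 - (α₂ + 3 / 2 * (γ₂ + δ₂))) / 2) (β₁ / 2))).trans
        (min_le_right _ _)
      linarith
  obtain ⟨Z, hZ⟩ := h6 s hs α₁ α₂ γ₁ γ₂ δ₁ δ₂ hα₁ hα hγ₁ hγ hδ₁ hδ η' hη'0
  obtain ⟨X₀, hX₀⟩ := h7 s hs β₁ β₂ hβ₁ hβ (by linarith) Z η ε hη0 hε0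
  -- the lower bound for one X
  have hlow : ∀ X : ℝ, max X₀ 3 ≤ X →
      (1 - η) * ((β₂ - β₁) * Real.log X) * X *
        (RR s X α₁ α₂ γ₁ γ₂ δ₁ δ₂ - η' * Real.log X ^ 3) -
        EE X ε α₁ α₂ β₁ γ₁ γ₂ δ₁ δ₂ ≤ (CNT s X α₁ α₂ β₁ β₂ γ₁ γ₂ δ₁ δ₂ : ℝ) := by
    intro X hX
    have hXX : X₀ ≤ X := (le_max_left _ _).trans hX
    have hX3 : 3 ≤ X := (le_max_right _ _).trans hX
    have hX0 : 0 < X := by linarith
    have hX1 : 1 ≤ X := by linarith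
    have hL : 0 < Real.log X := Real.log_pos (by linarith)
    have hbad := hZ X (by linarith)
    have hRG := RG_eq s Z X α₁ α₂ γ₁ γ₂ δ₁ δ₂
    have hRG' : RR s X α₁ α₂ γ₁ γ₂ δ₁ δ₂ - η' * Real.log X ^ 3 ≤
        RG s Z X α₁ α₂ γ₁ γ₂ δ₁ δ₂ := by
      rw [hRG]
      have : (∑ a ∈ In X α₁ α₂, ∑ u ∈ In X γ₁ γ₂, ∑ v ∈ In X δ₁ δ₂,
        (if Good s Z (u * v) then 0 else rho s a (u * v) / (a : ℝ))) ≤ η' * Real.log X ^ 3 := hbad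
      linarith
    have hc : 0 ≤ (1 - η) * ((β₂ - β₁) * Real.log X) * X := by
      have : 0 < 1 - η := by linarith
      positivity
    have hE := err_bound (ε := ε) (α₁ := α₁) (α₂ := α₂) (β₁ := β₁) (γ₁ := γ₁) (γ₂ := γ₂)
      (δ₁ := δ₁) (δ₂ := δ₂) hX1
    have hterm : ∀ a ∈ In X α₁ α₂, ∀ u ∈ In X γ₁ γ₂, ∀ v ∈ In X δ₁ δ₂,
        (1 - η) * ((β₂ - β₁) * Real.log X) * X *
          (if Good s Z (u * v) then rho s a (u * v) / (a : ℝ) else 0) -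
          X ^ ε * (Real.sqrt ((u * v : ℕ) : ℝ) + X ^ (1 - β₁) / ((a : ℝ) * ((u * v : ℕ) : ℝ))) ≤
          ∑ b ∈ In X β₁ β₂, (cc s X (u * v) a b : ℝ) := by
      intro a ha u hu v hv
      have ha' := mem_In hX0.le ha
      have hu' := mem_In hX0.le hu
      have hv' := mem_In hX0.le hv
      have ha1 : 1 ≤ a := by
        have h1 : (0 : ℝ) < a := (Real.rpow_pos_of_pos hX0 _).trans ha'.1
        exact_mod_cast h1
      have hE0 : 0 ≤ X ^ ε * (Real.sqrt ((u * v : ℕ) : ℝ) +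
          X ^ (1 - β₁) / ((a : ℝ) * ((u * v : ℕ) : ℝ))) := by positivity
      split_ifs with hG
      · have hM1 : X ^ β₂ ≤ ((u * v : ℕ) : ℝ) := by
          push_cast
          calc X ^ β₂ ≤ X ^ (γ₁ + δ₁) := Real.rpow_le_rpow_of_exponent_le hX1 hbc
            _ = X ^ γ₁ * X ^ δ₁ := Real.rpow_add hX0 _ _
            _ ≤ (u : ℝ) * v := mul_le_mul hu'.1.le hv'.1.le (by positivity) (by positivity)
        have hM2 : ((u * v : ℕ) : ℝ) ≤ X := by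
          push_cast
          calc (u : ℝ) * v ≤ X ^ γ₂ * X ^ δ₂ := mul_le_mul hu'.2 hv'.2 (by positivity) (by positivity)
            _ = X ^ (γ₂ + δ₂) := (Real.rpow_add hX0 _ _).symm
            _ ≤ X ^ (1 : ℝ) := Real.rpow_le_rpow_of_exponent_le hX1 (by linarith)
            _ = X := Real.rpow_one X
        have haX : (a : ℝ) ≤ X ^ (1 - β₂ - ε) :=
          ha'.2.trans (Real.rpow_le_rpow_of_exponent_le hX1 (by linarith))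
        have h8 := hX₀ X hXX a (u * v) ha1 haX hG hM1 hM2
        refine le_trans (le_of_eq ?_) h8
        ring
      · have : (0 : ℝ) ≤ ∑ b ∈ In X β₁ β₂, (cc s X (u * v) a b : ℝ) := by positivity
        rw [mul_zero]
        linarith
    rw [cnt_comm]
    have hsum : (1 - η) * ((β₂ - β₁) * Real.log X) * X * RG s Z X α₁ α₂ γ₁ γ₂ δ₁ δ₂ -
        ∑ a ∈ In X α₁ α₂, ∑ u ∈ In X γ₁ γ₂, ∑ v ∈ In X δ₁ δ₂,
          X ^ ε * (Real.sqrt ((u * v : ℕ) : ℝ) + X ^ (1 - β₁) / ((a : ℝ) * ((u * v : ℕ) : ℝ))) ≤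
        ∑ a ∈ In X α₁ α₂, ∑ u ∈ In X γ₁ γ₂, ∑ v ∈ In X δ₁ δ₂, ∑ b ∈ In X β₁ β₂,
          (cc s X (u * v) a b : ℝ) := by
      unfold RG
      rw [Finset.mul_sum, ← Finset.sum_sub_distrib]
      refine Finset.sum_le_sum fun a ha => ?_
      rw [Finset.mul_sum, ← Finset.sum_sub_distrib]
      refine Finset.sum_le_sum fun u hu => ?_
      rw [Finset.mul_sum, ← Finset.sum_sub_distrib]
      exact Finset.sum_le_sum fun v hv => hterm a ha u hu v hv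
    have hmul := mul_le_mul_of_nonneg_left hRG' hc
    linarith
  -- the limit of the lower bound
  have hlim : Tendsto (fun X : ℝ => (1 - η) * (β₂ - β₁) *
      (RR s X α₁ α₂ γ₁ γ₂ δ₁ δ₂ / Real.log X ^ 3 - η') -
      EE X ε α₁ α₂ β₁ γ₁ γ₂ δ₁ δ₂ / (X * Real.log X ^ 4)) atTop
      (𝓝 ((1 - η) * (β₂ - β₁) * (V / (β₂ - β₁) - η') - 0)) :=
    ((hR.sub_const η').const_mul _).sub
      (err_tendsto hα₁.le hα.le hγ₁.le hγ.le hδ₁.le hδ.le hε2 hε3)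
  have hval : v < (1 - η) * (β₂ - β₁) * (V / (β₂ - β₁) - η') - 0 := by
    have h1 : (1 - η) * (β₂ - β₁) * (V / (β₂ - β₁) - η') = (1 - η) * (V - (β₂ - β₁) * η') := by
      field_simp
    rw [sub_zero, h1, hη']
    nlinarith
  filter_upwards [hlim.eventually (lt_mem_nhds hval), eventually_ge_atTop (max X₀ 3)] with X hX1 hX2
  have hX3 : 3 ≤ X := (le_max_right _ _).trans hX2
  have hX0 : 0 < X := by linarith
  have hL : 0 < Real.log X := Real.log_pos (by linarith)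
  refine le_trans ?_ (hlow X hX2)
  have hXL : 0 < X * Real.log X ^ 4 := by positivity
  have h9 := mul_le_mul_of_nonneg_right hX1.le hXL.le
  refine h9.trans (le_of_eq ?_)
  field_simp

end Pool.Agent.H592.TD
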