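import Mathlib
import Pool.Agent.H592.TD.Stm
import Pool.Graph.R_pool_sql_team_seeded_f0cf7b00.H329R2.AD.G2

set_option autoImplicit false

open Finset Filter Topology

namespace Pool.Agent.H592.TD

open Pool.Agent.H329R2.AD (dk ram Pr SS)

theorem final (h10 : S10) (h11 : S11) (h12 : S12) :
    ∀ h : ℕ, 1 ≤ h → 0 < SS 3 h ∧ ∀ c : ℝ, c < 1737 / 1792 → ∀ᶠ X : ℕ in atTop,
      c * (SS 3 h / 4 * X * Real.log X ^ 4) ≤ ∑ n ∈ Icc 1 X, dk 3 n * dk 3 (n + h) := by
  intro h hh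
  have hSS : 0 < SS 3 h := Pool.Agent.H329R2.AD.SS_pos 2 h (by norm_num) hh
  refine ⟨hSS, fun c hc => ?_⟩
  set δ : ℝ := 1737 / 1792 - c with hδ
  have hδ0 : 0 < δ := by rw [hδ]; linarith
  have h1 := h11 h hh (15 / 16 - δ / 2) (by linarith)
  have h2 := h10 h hh ((19 / 86016 - δ / 288) * SS 3 h) (by
    apply mul_lt_mul_of_pos_right _ hSS
    have := h12
    unfold S12 at this
    linarith)
  filter_upwards [h1, h2] with X hX1 hX2
  refine le_trans (le_of_eq ?_) (le_trans (add_le_add_right (mul_le_mul_of_nonneg_left hX2 (by norm_num : (0:ℝ) ≤ 36)) _) hX1)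
  have : c = 1737 / 1792 - δ := by rw [hδ]; ring
  rw [this]
  ring

end Pool.Agent.H592.TD
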