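import Mathlib
import Pool.Agent.H592.TD.Final
import Pool.Agent.H592.TD.S8
import Pool.Agent.H350.TD.S1
import Pool.Agent.H921.TD.S2
import Pool.Agent.H113.TD.S3
import Pool.Agent.H21.TD.S4
import Pool.Agent.H618.TD.S5
import Pool.Agent.H825.TD.S6
import Pool.Agent.H738.TD.S7
import Pool.Agent.H120.TD.S9
import Pool.Agent.H282.TD.S10
import Pool.Agent.H996.TD.S11
import Pool.Agent.H441.TD.Vol

set_option autoImplicit false

open Finset Filter Topology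

namespace Pool.Agent.H592.TD

open Pool.Agent.H329R2.AD (dk ram Pr SS)

theorem main : ∀ h : ℕ, 1 ≤ h → 0 < SS 3 h ∧ ∀ c : ℝ, c < 1737 / 1792 → ∀ᶠ X : ℕ in atTop,
    c * (SS 3 h / 4 * X * Real.log X ^ 4) ≤ ∑ n ∈ Icc 1 X, dk 3 n * dk 3 (n + h) := by
  have h1 : S1 := Pool.Agent.H350.TD.s1
  have h2 : S2 := Pool.Agent.H921.TD.s2
  have h3 : S3 := Pool.Agent.H113.TD.s3
  have h4 : S4 := Pool.Agent.H21.TD.s4
  have h5 : S5 := Pool.Agent.H618.TD.s5 h2 h3 h4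
  have h6 : S6 := s6 h2 h3 h4
  have h7 : S7 := s7 h1
  have h8 : S8 := s8 h5 h6 h7
  exact final (s10 h8 Pool.Agent.H120.TD.s9) Pool.Agent.H996.TD.s11 Pool.Agent.H441.TD.s12

end Pool.Agent.H592.TD
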