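import Mathlib
import Pool.Agent.H592.TD.Main

set_option autoImplicit false

open Finset Filter Topology

namespace Pool.Agent.H592.TD

open Pool.Agent.H329R2.AD (dk ram Pr SS)

/-- the lower bound for negative shifts from the one for positive shifts -/
theorem neg_of (C c₀ : ℝ) (hC : 0 < C) (hc₀ : 0 < c₀) (h : ℕ) (f : ℕ → ℝ) (k : ℕ)
    (H : ∀ c : ℝ, c < c₀ → ∀ᶠ X : ℕ in atTop, c * (C * X * Real.log X ^ k) ≤ ∑ n ∈ Icc 1 X, f n * f (n + h)) :
    ∀ c : ℝ, c < c₀ → ∀ᶠ X : ℕ in atTop, c * (C * X * Real.log X ^ k) ≤ ∑ n ∈ Ioc h X, f n * f (n - h) := by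
  intro c hc
  -- it suffices to treat positive `c`
  wlog hcp : 0 < c generalizing c with W
  · push Not at hcp
    filter_upwards [W (c₀ / 2) (by linarith) (by linarith)] with X hX
    refine le_trans ?_ hX
    apply mul_le_mul_of_nonneg_right (by linarith)
    positivity
  obtain ⟨c', h1, h2⟩ := exists_between hc
  have hc'0 : 0 < c' := hcp.trans h1
  have h3 : ∀ᶠ X : ℕ in atTop, c' * (C * ((X - h : ℕ) : ℝ) * Real.log ((X - h : ℕ) : ℝ) ^ k) ≤
      ∑ n ∈ Icc 1 (X - h), f n * f (n + h) :=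
    (tendsto_sub_atTop_nat h).eventually (H c' h2)
  -- comparison of the main terms
  have h4 : Tendsto (fun X : ℕ => ((X - h : ℕ) : ℝ) / X) atTop (𝓝 1) := by
    have : Tendsto (fun X : ℕ => 1 - (h : ℝ) / X) atTop (𝓝 (1 - 0)) :=
      tendsto_const_nhds.sub (tendsto_const_div_atTop_nhds_zero_nat (h : ℝ))
    rw [sub_zero] at this
    refine this.congr' ?_
    filter_upwards [eventually_ge_atTop (h + 1)] with X hX
    have hX0 : (X : ℝ) ≠ 0 := by
      have : (1 : ℕ) ≤ X := by omega
      positivity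
    rw [Nat.cast_sub (by omega)]
    field_simp
  have h5 : Tendsto (fun X : ℕ => Real.log ((X - h : ℕ) : ℝ) / Real.log X) atTop (𝓝 1) := by
    have hlog : Tendsto (fun X : ℕ => Real.log (X : ℝ)) atTop atTop :=
      Real.tendsto_log_atTop.comp tendsto_natCast_atTop_atTop
    have e1 : Tendsto (fun X : ℕ => Real.log (((X - h : ℕ) : ℝ) / X) / Real.log X) atTop (𝓝 0) := by
      have : Tendsto (fun X : ℕ => Real.log (((X - h : ℕ) : ℝ) / X)) atTop (𝓝 (Real.log 1)) :=
        (Real.continuousAt_log one_ne_zero).tendsto.comp h4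
      exact this.div_atTop hlog
    have e2 := e1.const_add 1
    rw [add_zero] at e2
    refine e2.congr' ?_
    filter_upwards [eventually_ge_atTop (h + 2)] with X hX
    have hX0 : (X : ℝ) ≠ 0 := by
      have : (1 : ℕ) ≤ X := by omega
      positivity
    have hX1 : Real.log (X : ℝ) ≠ 0 := by
      have : (1 : ℝ) < X := by exact_mod_cast (by omega : 1 < X)
      exact (Real.log_pos this).ne'
    have hX2 : ((X - h : ℕ) : ℝ) ≠ 0 := by
      have : (1 : ℕ) ≤ X - h := by omega
      positivity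
    rw [Real.log_div hX2 hX0]
    field_simp
    ring
  have h6 : Tendsto (fun X : ℕ => c' * ((((X - h : ℕ) : ℝ) / X) * (Real.log ((X - h : ℕ) : ℝ) / Real.log X) ^ k))
      atTop (𝓝 c') := by
    have := (h4.mul (h5.pow k)).const_mul c'
    simpa using this
  filter_upwards [h3, h6.eventually (lt_mem_nhds h1), eventually_ge_atTop (h + 2)] with X hX hX6 hXh
  have hsum : ∑ n ∈ Ioc h X, f n * f (n - h) = ∑ n ∈ Icc 1 (X - h), f n * f (n + h) := by
    symm
    apply sum_nbij' (fun n => n + h) (fun n => n - h)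
    · intro n hn; rw [mem_Icc] at hn; rw [mem_Ioc]; omega
    · intro n hn; rw [mem_Ioc] at hn; rw [mem_Icc]; omega
    · intro n _; simp
    · intro n hn; rw [mem_Ioc] at hn; show n - h + h = n; omega
    · intro n _; rw [Nat.add_sub_cancel, mul_comm]
  rw [hsum]
  refine le_trans ?_ hX
  have hX0 : (0 : ℝ) < X := by
    have : (1 : ℕ) ≤ X := by omega
    positivity
  have hX1 : 0 < Real.log (X : ℝ) := by
    have : (1 : ℝ) < X := by exact_mod_cast (by omega : 1 < X)
    exact Real.log_pos this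
  have e3 : c' * (C * ((X - h : ℕ) : ℝ) * Real.log ((X - h : ℕ) : ℝ) ^ k) =
      (c' * ((((X - h : ℕ) : ℝ) / X) * (Real.log ((X - h : ℕ) : ℝ) / Real.log X) ^ k)) *
        (C * X * Real.log X ^ k) := by
    rw [div_pow]
    field_simp
  rw [e3]
  apply mul_le_mul_of_nonneg_right hX6.le
  positivity

end Pool.Agent.H592.TD
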